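import Pool.Agent.H73.DA.Stm

set_option autoImplicit false
set_option linter.unusedSectionVars false
set_option linter.unusedVariables false

/-! # Test families -/

namespace Pool.Agent.H45.DA

open MvPolynomial MeasureTheory Filter Topology
open Pool.Agent.H628R4.TP (weylS IsBFunction)
open Pool.Agent.H74A
open Pool.Agent.H73.DA

variable {σ : Type} [Fintype σ] [DecidableEq σ]

/-- the substitution `X_j ↦ γ_j X_j` -/
noncomputable def tw (γ : σ → ℂ) : MvPolynomial σ ℂ →ₐ[ℂ] MvPolynomial σ ℂ :=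
  aeval fun j => C (γ j) * X j

theorem eval_tw (γ : σ → ℂ) (q : MvPolynomial σ ℂ) (z : σ → ℂ) :
    eval z (tw γ q) = eval (fun j => γ j * z j) q := by
  induction q using MvPolynomial.induction_on with
  | C a => simp [tw]
  | add p q hp hq => rw [map_add, map_add, map_add, hp, hq]
  | mul_X p n hp =>
    rw [map_mul, map_mul, map_mul, hp]
    simp [tw]

theorem pderiv_tw (γ : σ → ℂ) (i : σ) (q : MvPolynomial σ ℂ) :
    pderiv i (tw γ q) = C (γ i) * tw γ (pderiv i q) := by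
  induction q using MvPolynomial.induction_on with
  | C a => simp [tw]
  | add p q hp hq => rw [map_add, map_add, map_add, map_add, hp, hq, mul_add]
  | mul_X p n hp =>
    rw [map_mul, Derivation.leibniz, Derivation.leibniz, hp]
    have h1 : tw γ (X n) = C (γ n) * X n := by simp [tw]
    rw [h1]
    simp only [smul_eq_mul, map_add, map_mul, Derivation.leibniz, h1, pderiv_C, mul_zero, add_zero]
    by_cases h : n = i
    · subst h
      simp only [pderiv_X_self, map_one, mul_one]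
      ring
    · rw [pderiv_X_of_ne (Ne.symm (Ne.symm h))]
      simp only [map_zero, mul_zero, zero_add]
      ring

theorem ev_tw (γ : σ → ℂ) (q : MvPolynomial σ ℂ) (y : σ → ℝ) :
    ev (tw γ q) y = eval (fun j => γ j * (y j : ℂ)) q := eval_tw γ q _

theorem continuous_pw (w : σ → ℕ) : Continuous (pw w : (σ → ℝ) → σ → ℝ) :=
  continuous_pi fun j => (continuous_apply j).pow _

theorem contDiff_pw (w : σ → ℕ) : ContDiff ℝ ((⊤ : ℕ∞) : WithTop ℕ∞) (pw w : (σ → ℝ) → σ → ℝ) :=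
  contDiff_pi.2 fun j => (contDiff_apply ℝ ℝ j).pow _

theorem compact_pre (w : σ → ℕ) (hw : ∀ j, 0 < w j) {K : Set (σ → ℝ)} (hK : IsCompact K) :
    IsCompact (pw w ⁻¹' K) := by
  obtain ⟨R, hR⟩ := hK.isBounded.exists_norm_le
  refine Metric.isCompact_of_isClosed_isBounded (hK.isClosed.preimage (continuous_pw w)) ?_
  refine isBounded_iff_forall_norm_le.2 ⟨max 1 R, fun y hy => ?_⟩
  rw [pi_norm_le_iff_of_nonneg (by positivity)]
  intro j
  by_contra h
  push Not at h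
  have h1 : (1 : ℝ) ≤ ‖y j‖ := (le_max_left 1 R).trans h.le
  have h2 : ‖y j‖ ≤ ‖y j‖ ^ w j := by
    calc ‖y j‖ = ‖y j‖ ^ 1 := (pow_one _).symm
      _ ≤ _ := pow_le_pow_right₀ h1 (hw j)
  have h3 : ‖y j‖ ^ w j ≤ R := by
    rw [← norm_pow]
    exact (norm_le_pi_norm (pw w y) j).trans (hR _ hy)
  exact absurd ((le_max_right 1 R).trans_lt h) (not_lt.2 (h2.trans h3))

/-- test families -/
inductive Fam (w : σ → ℕ) (K : Set (σ → ℝ)) : ((σ → ℂ) → (σ → ℝ) → ℂ) → Prop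
  | base (q : MvPolynomial σ ℂ) (Ψ : (σ → ℝ) → ℂ) (h : Test K Ψ) :
      Fam w K (fun γ y => ev (tw γ q) y * Ψ (pw w y))
  | add (φ ψ : (σ → ℂ) → (σ → ℝ) → ℂ) (h : Fam w K φ) (h' : Fam w K ψ) :
      Fam w K (fun γ y => φ γ y + ψ γ y)

theorem contDiff_ev (q : MvPolynomial σ ℂ) :
    ContDiff ℝ ((⊤ : ℕ∞) : WithTop ℕ∞) (fun y : σ → ℝ => ev q y) := by
  induction q using MvPolynomial.induction_on with
  | C a => simp only [ev_C]; exact contDiff_const
  | add p q hp hq => simp only [ev_add]; exact hp.add hq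
  | mul_X p n hp =>
    simp only [ev_mul, ev_X]
    exact hp.mul (Complex.ofRealCLM.contDiff.comp
      (ContinuousLinearMap.proj (R := ℝ) (φ := fun _ : σ => ℝ) n).contDiff)

theorem test_pre (w : σ → ℕ) {K : Set (σ → ℝ)} {Ψ : (σ → ℝ) → ℂ} (h : Test K Ψ) :
    Test (pw w ⁻¹' K) (fun y => Ψ (pw w y)) := by
  refine ⟨h.1.comp (contDiff_pw w), ?_⟩
  refine (tsupport_comp_subset_preimage Ψ (continuous_pw w)).trans ?_
  exact Set.preimage_mono h.2

theorem Fam.test {w : σ → ℕ} {K : Set (σ → ℝ)} {φ : (σ → ℂ) → (σ → ℝ) → ℂ} (h : Fam w K φ)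
    (γ : σ → ℂ) : Test (pw w ⁻¹' K) (φ γ) := by
  induction h with
  | base q Ψ h => exact (test_pre w h).mul (contDiff_ev _)
  | add φ ψ _ _ h1 h2 => exact h1.add h2

theorem Fam.const_mul {w : σ → ℕ} {K : Set (σ → ℝ)} {φ : (σ → ℂ) → (σ → ℝ) → ℂ} (h : Fam w K φ)
    (c : ℂ) : Fam w K (fun γ y => c * φ γ y) := by
  induction h with
  | base q Ψ h =>
    have e : (fun (γ : σ → ℂ) (y : σ → ℝ) => c * (ev (tw γ q) y * Ψ (pw w y))) =
        fun γ y => ev (tw γ q) y * (c * Ψ (pw w y)) := by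
      funext γ y
      ring
    rw [e]
    exact Fam.base (w := w) q _ (h.const_mul c)
  | add φ ψ _ _ h1 h2 =>
    have e : (fun (γ : σ → ℂ) (y : σ → ℝ) => c * (φ γ y + ψ γ y)) =
        fun γ y => c * φ γ y + c * ψ γ y := by
      funext γ y
      ring
    rw [e]
    exact h1.add _ _ h2

theorem Fam.zmul {w : σ → ℕ} {K : Set (σ → ℝ)} {φ : (σ → ℂ) → (σ → ℝ) → ℂ} (h : Fam w K φ)
    (p : MvPolynomial σ ℂ) : Fam w K (fun γ y => ev (tw γ p) y * φ γ y) := by
  induction h with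
  | base q Ψ h =>
    have e : (fun (γ : σ → ℂ) (y : σ → ℝ) => ev (tw γ p) y * (ev (tw γ q) y * Ψ (pw w y))) =
        fun γ y => ev (tw γ (p * q)) y * Ψ (pw w y) := by
      funext γ y
      rw [map_mul, ev_mul]
      ring
    rw [e]
    exact Fam.base (w := w) (p * q) _ h
  | add φ ψ _ _ h1 h2 =>
    have e : (fun (γ : σ → ℂ) (y : σ → ℝ) => ev (tw γ p) y * (φ γ y + ψ γ y)) =
        fun γ y => ev (tw γ p) y * φ γ y + ev (tw γ p) y * ψ γ y := by
      funext γ y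
      ring
    rw [e]
    exact h1.add _ _ h2

theorem Fam.indep {w : σ → ℕ} (hw : ∀ j, 0 < w j) {K : Set (σ → ℝ)} {φ : (σ → ℂ) → (σ → ℝ) → ℂ}
    (h : Fam w K φ) (γ : σ → ℂ) (j : σ) (a : ℂ) (y : σ → ℝ) (hy : y j = 0) :
    φ (Function.update γ j a) y = φ γ y := by
  induction h with
  | base q Ψ h =>
    simp only [ev_tw]
    congr 2
    congr 1
    funext i
    by_cases hi : i = j
    · subst hi; rw [hy]; simp
    · rw [Function.update_of_ne hi]
  | add φ ψ _ _ h1 h2 => simp only [h1, h2]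

theorem hasFDerivAt_pw (w : σ → ℕ) (y : σ → ℝ) :
    HasFDerivAt (pw w : (σ → ℝ) → σ → ℝ) (ContinuousLinearMap.pi fun j =>
      ((w j : ℝ) * y j ^ (w j - 1)) • ContinuousLinearMap.proj (R := ℝ) (φ := fun _ : σ => ℝ) j) y := by
  rw [hasFDerivAt_pi]
  intro j
  have h := (ContinuousLinearMap.proj (R := ℝ) (φ := fun _ : σ => ℝ) j).hasFDerivAt (x := y)
  have h2 := (hasDerivAt_pow (w j) (y j)).comp_hasFDerivAt y h
  exact h2

theorem fderiv_comp_pw (w : σ → ℕ) {K : Set (σ → ℝ)} {Ψ : (σ → ℝ) → ℂ} (h : Test K Ψ)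
    (y : σ → ℝ) (i : σ) :
    fderiv ℝ (fun y => Ψ (pw w y)) y (Pi.single i 1) =
      (w i : ℂ) * (y i : ℂ) ^ (w i - 1) * fderiv ℝ Ψ (pw w y) (Pi.single i 1) := by
  have hd : DifferentiableAt ℝ Ψ (pw w y) := h.1.differentiable (by simp) _
  have h1 := hd.hasFDerivAt.comp y (hasFDerivAt_pw w y)
  have h2 : fderiv ℝ (fun y => Ψ (pw w y)) y = _ := h1.fderiv
  rw [h2]
  have h3 : (ContinuousLinearMap.pi fun j => ((w j : ℝ) * y j ^ (w j - 1)) •
      ContinuousLinearMap.proj (R := ℝ) (φ := fun _ : σ => ℝ) j) (Pi.single i 1) =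
      ((w i : ℝ) * y i ^ (w i - 1)) • (Pi.single i 1 : σ → ℝ) := by
    funext j
    by_cases hj : j = i
    · subst hj; simp
    · simp [Pi.single_eq_of_ne hj]
  rw [ContinuousLinearMap.comp_apply, h3, map_smul, Complex.real_smul]
  push_cast
  ring

theorem Fam.deriv {w : σ → ℕ} (hw : ∀ j, 0 < w j) {K : Set (σ → ℝ)}
    {φ : (σ → ℂ) → (σ → ℝ) → ℂ} (h : Fam w K φ) (i : σ) :
    ∃ ψ, Fam w K ψ ∧ ∀ γ : σ → ℂ, γ i ^ w i = 1 → ∀ y,
      fderiv ℝ (φ γ) y (Pi.single i 1) = γ i * ψ γ y := by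
  induction h with
  | base q Ψ h =>
    refine ⟨_, (Fam.base (w := w) (pderiv i q) Ψ h).add _ _
      (Fam.base (w := w) (C (w i : ℂ) * X i ^ (w i - 1) * q) _ (h.fderiv (Pi.single i 1))), ?_⟩
    intro γ hγ y
    have h1 := hasFDerivAt_ev (tw γ q) y
    have h2 : DifferentiableAt ℝ (fun y => Ψ (pw w y)) y :=
      (test_pre w h).1.differentiable (by simp) _
    have h3 := h1.mul h2.hasFDerivAt
    have h4 : fderiv ℝ (fun y => ev (tw γ q) y * Ψ (pw w y)) y = _ := h3.fderiv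
    rw [h4, add_apply, smul_apply, smul_apply, fderiv_comp_pw w h, dR_single, pderiv_tw, ev_mul,
      ev_C, map_mul, ev_mul, map_mul, map_pow, ev_mul, ev_pow]
    have h5 : tw γ (X i) = C (γ i) * X i := by simp [tw]
    have h6 : tw γ (C (w i : ℂ)) = C (w i : ℂ) := by simp [tw]
    rw [h5, h6, ev_mul, ev_C, ev_X, ev_C, smul_eq_mul, smul_eq_mul, mul_pow]
    have h7 : γ i * γ i ^ (w i - 1) = 1 := by
      rw [← hγ, ← pow_succ', Nat.sub_add_cancel (hw i)]
    linear_combination (-(w i : ℂ) * (y i : ℂ) ^ (w i - 1) * ev (tw γ q) y *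
      fderiv ℝ Ψ (pw w y) (Pi.single i 1)) * h7
  | add φ ψ ha hb h1 h2 =>
    obtain ⟨φ', h3, h4⟩ := h1
    obtain ⟨ψ', h5, h6⟩ := h2
    refine ⟨_, h3.add _ _ h5, fun γ hγ y => ?_⟩
    have h7 : DifferentiableAt ℝ (φ γ) y := (ha.test γ).1.differentiable (by simp) _
    have h8 : DifferentiableAt ℝ (ψ γ) y := (hb.test γ).1.differentiable (by simp) _
    have h9 : fderiv ℝ (fun y => φ γ y + ψ γ y) y = _ := (h7.hasFDerivAt.add h8.hasFDerivAt).fderiv
    rw [h9, add_apply, h4 γ hγ, h6 γ hγ]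
    ring

end Pool.Agent.H45.DA
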