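import Pool.Agent.H45.DA.Fam

set_option autoImplicit false
set_option linter.unusedSectionVars false
set_option linter.unusedVariables false

/-! # Integration by parts for test families -/

namespace Pool.Agent.H45.DA

open MvPolynomial MeasureTheory Filter Topology
open Pool.Agent.H628R4.TP (weylS IsBFunction)
open Pool.Agent.H74A
open Pool.Agent.H73.DA

variable {n : ℕ}

/-- the group of the roots of unity -/
noncomputable def GG (w : Fin (n + 1) → ℕ) (S : Finset (Fin (n + 1))) :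
    Finset (Fin (n + 1) → ℂ) :=
  Fintype.piFinset fun j => Polynomial.nthRootsFinset (if j ∈ S then w j else 1) (1 : ℂ)

/-- the quadrant -/
def PP (S : Finset (Fin (n + 1))) : Set (Fin (n + 1) → ℝ) := {y | ∀ j ∈ S, 0 < y j}

theorem isOpen_PP (S : Finset (Fin (n + 1))) : IsOpen (PP S) := by
  have h : PP S = ⋂ j ∈ S, {y : Fin (n + 1) → ℝ | 0 < y j} := by
    ext y
    simp [PP]
  rw [h]
  exact isOpen_biInter_finset fun j _ => isOpen_lt continuous_const (continuous_apply j)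

theorem mem_GG {w : Fin (n + 1) → ℕ} (hw : ∀ j, 0 < w j) {S : Finset (Fin (n + 1))}
    {γ : Fin (n + 1) → ℂ} : γ ∈ GG w S ↔ ∀ j, γ j ^ (if j ∈ S then w j else 1) = 1 := by
  rw [GG, Fintype.mem_piFinset]
  refine forall_congr' fun j => ?_
  rw [Polynomial.mem_nthRootsFinset]
  split_ifs
  · exact hw j
  · exact one_pos

theorem GG_pow {w : Fin (n + 1) → ℕ} (hw : ∀ j, 0 < w j) {S : Finset (Fin (n + 1))}
    {γ : Fin (n + 1) → ℂ} (h : γ ∈ GG w S) (j : Fin (n + 1)) : γ j ^ w j = 1 := by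
  have h1 := (mem_GG hw).1 h j
  split_ifs at h1
  · exact h1
  · rw [pow_one] at h1
    rw [h1, one_pow]

theorem GG_ne {w : Fin (n + 1) → ℕ} (hw : ∀ j, 0 < w j) {S : Finset (Fin (n + 1))}
    {γ : Fin (n + 1) → ℂ} (h : γ ∈ GG w S) (j : Fin (n + 1)) : γ j ≠ 0 := by
  intro h0
  have h1 := GG_pow hw h j
  rw [h0, zero_pow (hw j).ne'] at h1
  exact zero_ne_one h1

theorem tw_inv {f : MvPolynomial (Fin (n + 1)) ℂ} {w : Fin (n + 1) → ℕ} (hw : ∀ j, 0 < w j)
    {S : Finset (Fin (n + 1))}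
    (hinv : ∀ (z : Fin (n + 1) → ℂ), ∀ j ∈ S, ∀ ζ : ℂ, ζ ^ w j = 1 →
      eval (Function.update z j (ζ * z j)) f = eval z f)
    {γ : Fin (n + 1) → ℂ} (h : γ ∈ GG w S) : tw γ f = f := by
  refine MvPolynomial.funext fun z => ?_
  rw [eval_tw]
  have key : ∀ T : Finset (Fin (n + 1)),
      eval (fun j => if j ∈ T then γ j * z j else z j) f = eval z f := by
    intro T
    induction T using Finset.induction_on with
    | empty => simp
    | insert a T ha ih =>
      rw [← ih]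
      set z' : Fin (n + 1) → ℂ := fun j => if j ∈ T then γ j * z j else z j with hz'
      have hza : z' a = z a := by rw [hz']; simp [ha]
      have e : (fun j => if j ∈ insert a T then γ j * z j else z j) =
          Function.update z' a (γ a * z' a) := by
        funext j
        by_cases hj : j = a
        · subst hj
          rw [Function.update_self, hza]
          simp
        · rw [Function.update_of_ne hj, hz']
          simp [hj]
      rw [e]
      have h1 := (mem_GG hw).1 h a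
      by_cases haS : a ∈ S
      · rw [if_pos haS] at h1
        exact hinv z' a haS _ h1
      · rw [if_neg haS, pow_one] at h1
        rw [h1, one_mul, Function.update_eq_self]
  have h1 := key Finset.univ
  simp only [Finset.mem_univ, if_true] at h1
  exact h1

theorem sum_zero {w : Fin (n + 1) → ℕ} (hw : ∀ j, 0 < w j) {S : Finset (Fin (n + 1))}
    {j : Fin (n + 1)} (hj : j ∈ S) (h2 : 2 ≤ w j) (h : (Fin (n + 1) → ℂ) → ℂ)
    (hh : ∀ γ a, h (Function.update γ j a) = h γ) :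
    ∑ γ ∈ GG w S, (γ j)⁻¹ * h γ = 0 := by
  set ζ : ℂ := Complex.exp (2 * Real.pi * Complex.I / (w j)) with hζ
  have hp : IsPrimitiveRoot ζ (w j) := Complex.isPrimitiveRoot_exp (w j) (hw j).ne'
  have hz1 : ζ ≠ 1 := hp.ne_one h2
  have hz0 : ζ ≠ 0 := hp.ne_zero (hw j).ne'
  have hmem : ∀ a : ℂ, a ^ w j = 1 → ∀ γ ∈ GG w S, Function.update γ j (a * γ j) ∈ GG w S := by
    intro a ha γ hγ
    rw [mem_GG hw] at hγ ⊢
    intro i
    by_cases hi : i = j
    · subst hi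
      have := hγ i
      rw [if_pos hj] at this ⊢
      rw [Function.update_self, mul_pow, ha, this, one_mul]
    · rw [Function.update_of_ne hi]
      exact hγ i
  have key : ∑ γ ∈ GG w S, (γ j)⁻¹ * h γ = ∑ γ ∈ GG w S, (ζ * γ j)⁻¹ * h γ := by
    refine Finset.sum_nbij' (fun γ => Function.update γ j (ζ⁻¹ * γ j))
      (fun γ => Function.update γ j (ζ * γ j)) ?_ ?_ ?_ ?_ ?_
    · exact hmem _ (by rw [inv_pow, hp.pow_eq_one, inv_one])
    · exact hmem _ hp.pow_eq_one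
    · intro γ _
      funext i
      by_cases hi : i = j
      · subst hi
        simp [hz0]
      · simp [hi]
    · intro γ _
      funext i
      by_cases hi : i = j
      · subst hi
        simp [hz0]
      · simp [hi]
    · intro γ _
      rw [Function.update_self, hh, mul_inv_cancel_left₀ hz0]
  have e : ∑ γ ∈ GG w S, (ζ * γ j)⁻¹ * h γ = ζ⁻¹ * ∑ γ ∈ GG w S, (γ j)⁻¹ * h γ := by
    rw [Finset.mul_sum]
    refine Finset.sum_congr rfl fun γ _ => ?_
    rw [mul_inv, mul_assoc]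
  rw [e] at key
  have h3 : (ζ - 1) * ∑ γ ∈ GG w S, (γ j)⁻¹ * h γ = 0 := by
    have h4 : ζ * ∑ γ ∈ GG w S, (γ j)⁻¹ * h γ = ∑ γ ∈ GG w S, (γ j)⁻¹ * h γ := by
      nth_rewrite 1 [key]
      rw [mul_inv_cancel_left₀ hz0]
    rw [sub_mul, one_mul, h4, sub_self]
  rcases mul_eq_zero.1 h3 with h5 | h5
  · exact absurd (sub_eq_zero.1 h5) hz1
  · exact h5

theorem int_sum {w : Fin (n + 1) → ℕ} (hw : ∀ j, 0 < w j) {S : Finset (Fin (n + 1))}
    {K : Set (Fin (n + 1) → ℝ)} (hK : IsCompact K)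
    {φ : (Fin (n + 1) → ℂ) → (Fin (n + 1) → ℝ) → ℂ} (hφ : Fam w K φ)
    (g : MvPolynomial (Fin (n + 1)) ℂ) :
    Integrable (fun x => ∑ γ ∈ GG w S, ev (tw γ g) x * φ γ x) :=
  integrable_finsetSum _ fun γ _ => integrable_mul (compact_pre w hw hK) (continuous_ev _)
    (hφ.test γ)

theorem sum_zero_at {f : MvPolynomial (Fin (n + 1)) ℂ} {Ω : Set (Fin (n + 1) → ℝ)}
    {K : Set (Fin (n + 1) → ℝ)}
    {w : Fin (n + 1) → ℕ} (hw : ∀ j, 0 < w j) {S : Finset (Fin (n + 1))}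
    (hS : ∀ j ∈ S, 2 ≤ w j) (g : MvPolynomial (Fin (n + 1)) ℂ)
    {φ : (Fin (n + 1) → ℂ) → (Fin (n + 1) → ℝ) → ℂ} (hφ : Fam w K φ)
    (i : Fin (n + 1)) (hi : i ∈ S) (x : Fin (n + 1) → ℝ) (hx : x i = 0) :
    ∑ γ ∈ GG w S, (γ i)⁻¹ * (Ω.indicator (ev (tw γ g)) x * φ γ x) = 0 := by
  refine sum_zero hw hi (hS i hi) (fun γ => Ω.indicator (ev (tw γ g)) x * φ γ x) ?_
  intro γ a
  have e0 : ev (tw (Function.update γ i a) g) x = ev (tw γ g) x := by
    have e : (fun j => Function.update γ i a j * (x j : ℂ)) = fun j => γ j * (x j : ℂ) := by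
      funext j
      by_cases hj : j = i
      · subst hj; rw [hx]; simp
      · rw [Function.update_of_ne hj]
    rw [ev_tw, ev_tw, e]
  have e1 : Ω.indicator (ev (tw (Function.update γ i a) g)) x = Ω.indicator (ev (tw γ g)) x := by
    by_cases hxΩ : x ∈ Ω
    · rw [Set.indicator_of_mem hxΩ, Set.indicator_of_mem hxΩ, e0]
    · rw [Set.indicator_of_notMem hxΩ, Set.indicator_of_notMem hxΩ]
  rw [hφ.indep hw γ i a x hx, e1]

theorem deriv_at {Ω : Set (Fin (n + 1) → ℝ)}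
    {w : Fin (n + 1) → ℕ} (hw : ∀ j, 0 < w j) {S : Finset (Fin (n + 1))}
    (g : MvPolynomial (Fin (n + 1)) ℂ)
    {φ ψ : (Fin (n + 1) → ℂ) → (Fin (n + 1) → ℝ) → ℂ} (i : Fin (n + 1))
    (hd : ∀ γ : Fin (n + 1) → ℂ, γ i ^ w i = 1 → ∀ y,
      fderiv ℝ (φ γ) y (Pi.single i 1) = γ i * ψ γ y) {γ : Fin (n + 1) → ℂ} (hγ : γ ∈ GG w S)
    (x : Fin (n + 1) → ℝ) :
    ((γ i)⁻¹ • (Ω.indicator (ev (tw γ g)) x • fderiv ℝ (φ γ) x +
        φ γ x • Ω.indicator (dR (tw γ g)) x)) (Pi.single i 1) =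
        Ω.indicator (ev (tw γ g)) x * ψ γ x +
        Ω.indicator (ev (tw γ (pderiv i g))) x * φ γ x := by
  have h5 := GG_ne hw hγ i
  rw [smul_apply, add_apply, smul_apply, smul_apply, hd γ (GG_pow hw hγ i)]
  by_cases hx : x ∈ Ω
  · rw [Set.indicator_of_mem hx, Set.indicator_of_mem hx, Set.indicator_of_mem hx, dR_single,
      pderiv_tw, ev_mul, ev_C, smul_eq_mul, smul_eq_mul, smul_eq_mul]
    field_simp
  · rw [Set.indicator_of_notMem hx, Set.indicator_of_notMem hx, Set.indicator_of_notMem hx]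
    simp

theorem sum_ind {Ω : Set (Fin (n + 1) → ℝ)} {G : Finset (Fin (n + 1) → ℂ)}
    (H φ : (Fin (n + 1) → ℂ) → (Fin (n + 1) → ℝ) → ℂ) (x : Fin (n + 1) → ℝ) :
    ∑ γ ∈ G, Ω.indicator (H γ) x * φ γ x = Ω.indicator (fun x => ∑ γ ∈ G, H γ x * φ γ x) x := by
  by_cases hx : x ∈ Ω
  · simp only [Set.indicator_of_mem hx]
  · simp only [Set.indicator_of_notMem hx, zero_mul, Finset.sum_const_zero]

/-- **Integration by parts for families.** -/
theorem int_parts2 (hI : S_IBP) {f : MvPolynomial (Fin (n + 1)) ℂ} {Ω : Set (Fin (n + 1) → ℝ)}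
    (h : Bdry f Ω) {K : Set (Fin (n + 1) → ℝ)} (hK : IsCompact K)
    {w : Fin (n + 1) → ℕ} (hw : ∀ j, 0 < w j) {S : Finset (Fin (n + 1))}
    (hS : ∀ j ∈ S, 2 ≤ w j) (hinv : ∀ γ ∈ GG w S, tw γ f = f)
    (g : MvPolynomial (Fin (n + 1)) ℂ) (hg : f ^ 2 ∣ g)
    {φ ψ : (Fin (n + 1) → ℂ) → (Fin (n + 1) → ℝ) → ℂ} (hφ : Fam w K φ) (hψ : Fam w K ψ)
    (i : Fin (n + 1))
    (hd : ∀ γ : Fin (n + 1) → ℂ, γ i ^ w i = 1 → ∀ y,
      fderiv ℝ (φ γ) y (Pi.single i 1) = γ i * ψ γ y) :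
    ∫ x in Ω ∩ PP S, ∑ γ ∈ GG w S, ev (tw γ (pderiv i g)) x * φ γ x =
      ∫ x in Ω ∩ PP S, ∑ γ ∈ GG w S, ev (tw γ g) x * (-1 * ψ γ x) := by
  have hm := h.1.measurableSet
  have hK' := compact_pre w hw hK
  have hdv : ∀ γ ∈ GG w S, f ^ 2 ∣ tw γ g := by
    intro γ hγ
    obtain ⟨k, rfl⟩ := hg
    rw [map_mul, map_pow, hinv γ hγ]
    exact Dvd.intro _ rfl
  have h1 : ∀ x, HasFDerivAt (fun x =>
      ∑ γ ∈ GG w S, (γ i)⁻¹ * (Ω.indicator (ev (tw γ g)) x * φ γ x))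
      (∑ γ ∈ GG w S, (γ i)⁻¹ • (Ω.indicator (ev (tw γ g)) x • fderiv ℝ (φ γ) x +
      φ γ x • Ω.indicator (dR (tw γ g)) x)) x := by
    intro x
    refine HasFDerivAt.fun_sum fun γ hγ => ?_
    have h2 : DifferentiableAt ℝ (φ γ) x := (hφ.test γ).1.differentiable (by simp) _
    exact ((hasFDerivAt_ind h (tw γ g) (hdv γ hγ) x).mul h2.hasFDerivAt).const_mul _
  have h2 : HasCompactSupport (fun x =>
      ∑ γ ∈ GG w S, (γ i)⁻¹ * (Ω.indicator (ev (tw γ g)) x * φ γ x)) := by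
    refine HasCompactSupport.intro hK' fun x hx => ?_
    refine Finset.sum_eq_zero fun γ _ => ?_
    rw [(hφ.test γ).zero hx, mul_zero, mul_zero]
  have h3 : ∀ x, (∑ γ ∈ GG w S, (γ i)⁻¹ • (Ω.indicator (ev (tw γ g)) x • fderiv ℝ (φ γ) x +
      φ γ x • Ω.indicator (dR (tw γ g)) x)) (Pi.single i 1) =
      Ω.indicator (fun x => ∑ γ ∈ GG w S, ev (tw γ g) x * ψ γ x) x +
      Ω.indicator (fun x => ∑ γ ∈ GG w S, ev (tw γ (pderiv i g)) x * φ γ x) x := by
    intro x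
    rw [sum_apply, Finset.sum_congr rfl fun γ hγ => deriv_at hw g i hd hγ x,
      Finset.sum_add_distrib, sum_ind, sum_ind]
  have i1 := (int_sum (S := S) hw hK hψ g).indicator hm
  have i2 := (int_sum (S := S) hw hK hφ (pderiv i g)).indicator hm
  have h5 := hI n S i _ _ h1 h2 (by simp only [h3]; exact i1.add i2)
    (fun hi x hx => sum_zero_at (f := f) hw hS g hφ i hi x hx)
  simp only [h3] at h5
  rw [integral_add i1.integrableOn i2.integrableOn, setIntegral_indicator hm,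
    setIntegral_indicator hm] at h5
  have e0 : {x : Fin (n + 1) → ℝ | ∀ i ∈ S, 0 < x i} ∩ Ω = Ω ∩ PP S := Set.inter_comm _ _
  rw [e0] at h5
  have e2 : ∀ x, (∑ γ ∈ GG w S, ev (tw γ g) x * (-1 * ψ γ x)) =
      -(∑ γ ∈ GG w S, ev (tw γ g) x * ψ γ x) := by
    intro x
    rw [← Finset.sum_neg_distrib]
    exact Finset.sum_congr rfl fun γ _ => by ring
  simp only [e2]
  rw [integral_neg]
  exact (neg_eq_of_add_eq_zero_right h5).symm

/-- **The adjoint action.** -/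
theorem adj2 (hI : S_IBP) {f : MvPolynomial (Fin (n + 1)) ℂ} {Ω : Set (Fin (n + 1) → ℝ)}
    (h : Bdry f Ω) {K : Set (Fin (n + 1) → ℝ)} (hK : IsCompact K)
    {w : Fin (n + 1) → ℕ} (hw : ∀ j, 0 < w j) {S : Finset (Fin (n + 1))}
    (hS : ∀ j ∈ S, 2 ≤ w j) (hinv : ∀ γ ∈ GG w S, tw γ f = f)
    (Q : Module.End ℂ (MvPolynomial (Fin (n + 1)) ℂ))
    (hQ : Q ∈ weylS (Fin (n + 1))) : ∃ k : ℕ, (∀ n g, f ^ (n + k) ∣ g → f ^ n ∣ Q g) ∧
      ∀ φ, Fam w K φ → ∃ ψ, Fam w K ψ ∧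
      ∀ g : MvPolynomial (Fin (n + 1)) ℂ, f ^ k ∣ g →
        ∫ x in Ω ∩ PP S, ∑ γ ∈ GG w S, ev (tw γ (Q g)) x * φ γ x =
          ∫ x in Ω ∩ PP S, ∑ γ ∈ GG w S, ev (tw γ g) x * ψ γ x := by
  induction hQ using Algebra.adjoin_induction with
  | mem Q hQ =>
    rcases hQ with ⟨i, rfl⟩ | ⟨i, rfl⟩
    · refine ⟨0, fun n g hg => ?_, fun φ hφ => ⟨_, hφ.zmul (X i), fun g hg => ?_⟩⟩
      · exact hg.mul_left _
      · refine integral_congr_ae (Filter.Eventually.of_forall fun x => ?_)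
        refine Finset.sum_congr rfl fun γ _ => ?_
        simp only [LinearMap.mulLeft_apply, map_mul, ev_mul]
        ring
    · refine ⟨2, fun n g hg => ?_, fun φ hφ => ?_⟩
      · obtain ⟨k, rfl⟩ := hg
        change f ^ n ∣ pderiv i (f ^ (n + 2) * k)
        rw [Derivation.leibniz, Derivation.leibniz_pow]
        simp only [smul_eq_mul, nsmul_eq_mul]
        refine dvd_add ?_ ?_
        · rw [pow_add]
          exact (Dvd.intro _ rfl).mul_right _
        · refine Dvd.dvd.mul_left ?_ _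
          refine Dvd.dvd.mul_left ?_ _
          have : n + 2 - 1 = n + 1 := by omega
          rw [this]
          exact (pow_dvd_pow f (Nat.le_succ n)).mul_right _
      · obtain ⟨ψ, h1, h2⟩ := hφ.deriv hw i
        exact ⟨_, h1.const_mul (-1), fun g hg =>
          int_parts2 hI h hK hw hS hinv g hg hφ h1 i h2⟩
  | algebraMap r =>
    refine ⟨0, fun n g hg => ?_, fun φ hφ => ⟨_, hφ.const_mul r, fun g hg => ?_⟩⟩
    · rw [Module.algebraMap_end_apply]
      exact dvd_smul_of_dvd r hg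
    · refine integral_congr_ae (Filter.Eventually.of_forall fun x => ?_)
      refine Finset.sum_congr rfl fun γ _ => ?_
      have e : tw γ (C r * g) = C r * tw γ g := by
        rw [map_mul]
        congr 1
        simp [tw]
      rw [Module.algebraMap_end_apply, smul_eq_C_mul, e, ev_mul, ev_C]
      ring
  | add Q R _ _ hQ hR =>
    obtain ⟨k, hk1, hk2⟩ := hQ
    obtain ⟨m, hm1, hm2⟩ := hR
    refine ⟨max k m, fun n g hg => ?_, fun φ hφ => ?_⟩
    · have h1 : f ^ (n + k) ∣ g := (pow_dvd_pow f (by omega)).trans hg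
      have h2 : f ^ (n + m) ∣ g := (pow_dvd_pow f (by omega)).trans hg
      exact dvd_add (hk1 n g h1) (hm1 n g h2)
    · obtain ⟨ψ, h1, h2⟩ := hk2 φ hφ
      obtain ⟨χ, h3, h4⟩ := hm2 φ hφ
      refine ⟨_, h1.add _ _ h3, fun g hg => ?_⟩
      have h5 := h2 g ((pow_dvd_pow f (le_max_left _ _)).trans hg)
      have h6 := h4 g ((pow_dvd_pow f (le_max_right _ _)).trans hg)
      have e1 : ∀ x, (∑ γ ∈ GG w S, ev (tw γ ((Q + R) g)) x * φ γ x) =
          (∑ γ ∈ GG w S, ev (tw γ (Q g)) x * φ γ x) +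
          ∑ γ ∈ GG w S, ev (tw γ (R g)) x * φ γ x := by
        intro x
        rw [← Finset.sum_add_distrib]
        refine Finset.sum_congr rfl fun γ _ => ?_
        rw [LinearMap.add_apply, map_add, ev_add, add_mul]
      have e2 : ∀ x, (∑ γ ∈ GG w S, ev (tw γ g) x * (ψ γ x + χ γ x)) =
          (∑ γ ∈ GG w S, ev (tw γ g) x * ψ γ x) +
          ∑ γ ∈ GG w S, ev (tw γ g) x * χ γ x := by
        intro x
        rw [← Finset.sum_add_distrib]
        exact Finset.sum_congr rfl fun γ _ => mul_add _ _ _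
      simp only [e1, e2]
      rw [integral_add, integral_add, h5, h6]
      · exact (int_sum hw hK h1 _).integrableOn
      · exact (int_sum hw hK h3 _).integrableOn
      · exact (int_sum hw hK hφ _).integrableOn
      · exact (int_sum hw hK hφ _).integrableOn
  | mul Q R _ _ hQ hR =>
    obtain ⟨k, hk1, hk2⟩ := hQ
    obtain ⟨m, hm1, hm2⟩ := hR
    refine ⟨k + m, fun n g hg => ?_, fun φ hφ => ?_⟩
    · rw [← add_assoc] at hg
      exact hk1 n _ (hm1 (n + k) g hg)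
    · obtain ⟨ψ, h1, h2⟩ := hk2 φ hφ
      obtain ⟨χ, h3, h4⟩ := hm2 ψ h1
      refine ⟨χ, h3, fun g hg => ?_⟩
      have h5 : f ^ m ∣ g := (pow_dvd_pow f (Nat.le_add_left _ _)).trans hg
      have h6 : f ^ k ∣ R g := hm1 k g hg
      rw [Module.End.mul_apply, h2 (R g) h6, h4 g h5]

end Pool.Agent.H45.DA
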